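import Mathlib
import Pool.Agent.W873.Gmp.Defs

set_option autoImplicit false

/-!
# The guessing model principle in the extension

Definitions for MP_100a6c_lc. The forcing relation is the one of `Pool.Agent.Helper669.Forcing`: a
sentence is the set of the conditions which force it. A name for a subset of a set `L` of the
ground model is a map from `L` to the sets of conditions; in the extension each set is in bijection
with such an `L`.
-/

namespace Pool.Agent.W873.Gp

open Cardinal Ordinal Pool.Agent.W873.Gmp Pool.Agent.Helper669.Forcing

/-- the ordinals below `κ` -/
abbrev Kt (κ : Cardinal.{0}) : Type := κ.ord.ToType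

/-- the ordinals below `κ⁺` -/
abbrev Wt (κ : Cardinal.{0}) : Type := (Order.succ κ).ord.ToType

section forcing

variable {P : Type} [Preorder P] {L : Type}

/-- `φ` if and only if `ψ` -/
def fiff (φ ψ : Set P) : Set P := fand (fimp φ ψ) (fimp ψ φ)

/-- The sets named by `x` and `y` are equal. -/
def SEq (x y : L → Set P) : Set P := fall fun l : L => fiff (meets (x l)) (meets (y l))

/-- the name for the intersection -/
def inter (x y : L → Set P) : L → Set P := fun l => fand (meets (x l)) (meets (y l))

/-- the name for `{l}` -/
def sing (l : L) : L → Set P := fun l' => fground (l' = l)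

/-- The set named by `x` has at most `κ` elements: there is a partial function from `κ` onto it. -/
def AtMost (κ : Cardinal.{0}) (x : L → Set P) : Set P :=
  fex fun g : Kt κ → L → Set P =>
    fand (fall fun i : Kt κ => fall fun l : L => fall fun l' : L =>
      fimp (fand (meets (g i l)) (meets (g i l'))) (fground (l = l')))
    (fall fun l : L => fimp (meets (x l)) (fex fun i : Kt κ => meets (g i l)))

/-- A name for a family of `κ⁺` functions whose arguments are the sequences of length less than `μ`
of subsets of `L` and whose values are subsets of `L`. (A name for such a sequence is a sequence of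
names, and for each name of a function there is such a map, by the maximum principle.) -/
abbrev FnName (κ μ : Cardinal.{0}) (L P : Type) : Type :=
  Wt κ → (ζ : Kt μ) → (Set.Iio ζ → L → Set P) → L → Set P

/-- The value of the functions depends only on the sequence of the sets, and not on the names. -/
def IsExt {κ μ : Cardinal.{0}} (F : FnName κ μ L P) : Set P :=
  fall fun i : Wt κ => fall fun ζ : Kt μ => fall fun s : Set.Iio ζ → L → Set P =>
    fall fun t : Set.Iio ζ → L → Set P =>
      fimp (fall fun ξ : Set.Iio ζ => SEq (s ξ) (t ξ)) (SEq (F i ζ s) (F i ζ t))

/-- The family `{Y j : j < κ⁺}` of subsets of `L` is closed under the functions. -/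
def IsClosed {κ μ : Cardinal.{0}} (F : FnName κ μ L P) (Y : Wt κ → L → Set P) : Set P :=
  fall fun i : Wt κ => fall fun ζ : Kt μ => fall fun s : Set.Iio ζ → L → Set P =>
    fimp (fall fun ξ : Set.Iio ζ => fex fun j : Wt κ => SEq (s ξ) (Y j))
      (fex fun k : Wt κ => SEq (F i ζ s) (Y k))

/-- `d` is `κ⁺`-approximated by the family: `d ∩ a` is in the family for each `a` of size at most
`κ` in the family. -/
def Approx {κ : Cardinal.{0}} (Y : Wt κ → L → Set P) (d : L → Set P) : Set P :=
  fall fun j : Wt κ => fimp (AtMost κ (Y j)) (fex fun k : Wt κ => SEq (inter d (Y j)) (Y k))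

/-- `d` is guessed by the family: some `e` in the family has the same elements as `d` among the
`l : L` such that `{l}` is in the family. -/
def Guessed {κ : Cardinal.{0}} (Y : Wt κ → L → Set P) (d : L → Set P) : Set P :=
  fex fun k : Wt κ => fall fun l : L => fimp (fex fun j : Wt κ => SEq (Y j) (sing l))
    (fiff (meets (d l)) (meets (Y k l)))

end forcing

/-- The guessing model principle for `κ⁺⁺` and closure under sequences of length less than `μ` in
the extension: for each set `L` and each family of `κ⁺` functions from the sequences of length less
than `μ` of subsets of `L` to the subsets of `L` there is a family of (at most) `κ⁺` subsets of `L`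
which is closed under the functions and guesses all the subsets of `L` which it `κ⁺`-approximates.
The guessing model principle of the problem is the case `μ = κ`. -/
def ForcedGMP (κ μ : Cardinal.{0}) (P : Type) [Preorder P] : Set P :=
  fall fun L : Type => fall fun F : FnName κ μ L P => fimp (IsExt F)
    (fex fun Y : Wt κ → L → Set P => fand (IsClosed F Y)
      (fall fun d : L → Set P => fimp (Approx Y d) (Guessed Y d)))

/-- `κ^{<μ} ≤ κ⁺` in the extension: for each `ζ < μ` there is a sequence of length `κ⁺` which lists
all functions from `ζ` to `κ`. -/
def ForcedPow (κ μ : Cardinal.{0}) (P : Type) [Preorder P] : Set P :=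
  fall fun ζ : Kt μ => fex fun E : Wt κ → Set.Iio ζ → Kt κ → Set P =>
    fall fun h : Set.Iio ζ → Kt κ → Set P => fimp (IsFun h) (fex fun i : Wt κ =>
      fall fun ξ : Set.Iio ζ => fall fun η : Kt κ => fiff (meets (h ξ η)) (meets (E i ξ η)))

end Pool.Agent.W873.Gp
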