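import Mathlib
import Pool.Agent.W873.Gp.Defs

set_option autoImplicit false

/-!
# Basic facts on names for subsets
-/

namespace Pool.Agent.W873.Gp

open Cardinal Ordinal Pool.Agent.W873.Gmp Pool.Agent.Helper669.Forcing

section

variable {P : Type} [Preorder P] {L : Type}

theorem meets_of_dense {N : Set P} {p : P} (h : ∀ q ≤ p, ∃ r ≤ q, r ∈ meets N) : p ∈ meets N := by
  intro q hq
  obtain ⟨r, hr, h1⟩ := h q hq
  obtain ⟨t, ht, s, hs, hts⟩ := h1 r le_rfl
  exact ⟨t, ht.trans hr, s, hs, hts⟩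

theorem meets_idem {N : Set P} {p : P} : p ∈ meets (meets N) ↔ p ∈ meets N := by
  constructor
  · intro h
    refine meets_of_dense fun q hq => ?_
    obtain ⟨r, hr, s, hs, hrs⟩ := h q hq
    exact ⟨r, hr, down_meets _ _ hs _ hrs⟩
  · exact meets_of_mem

theorem not_meets {N : Set P} {p : P} (h : p ∉ meets N) : ∃ q ≤ p, q ∈ fnot (meets N) := by
  by_contra hcon
  push Not at hcon
  refine h (meets_of_dense fun q hq => ?_)
  have h1 := hcon q hq
  unfold fnot at h1
  simp only [Set.mem_ofPred_eq, not_forall, not_not] at h1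
  obtain ⟨r, hr, h2⟩ := h1
  exact ⟨r, hr, h2⟩

theorem mem_fimp_meets {φ N : Set P} {p : P} (hφ : Down φ) :
    p ∈ fimp φ (meets N) ↔ ∀ q ≤ p, q ∈ φ → q ∈ meets N := by
  rw [mem_fimp]
  constructor
  · intro h q hq hqφ
    refine meets_of_dense fun r hr => ?_
    exact h r (hr.trans hq) (hφ _ hqφ _ hr)
  · intro h q hq hqφ
    exact ⟨q, le_rfl, h q hq hqφ⟩

theorem mem_fiff_meets {M N : Set P} {p : P} :
    p ∈ fiff (meets M) (meets N) ↔ ∀ q ≤ p, (q ∈ meets M ↔ q ∈ meets N) := by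
  unfold fiff
  rw [mem_fand, mem_fimp_meets (down_meets _), mem_fimp_meets (down_meets _)]
  constructor
  · intro h q hq
    exact ⟨h.1 q hq, h.2 q hq⟩
  · intro h
    exact ⟨fun q hq => (h q hq).1, fun q hq => (h q hq).2⟩

/-- the sets named by `d` and `e` agree on `a` -/
def EqOn (d e : L → Set P) (a : Set L) : Set P :=
  {r | ∀ l ∈ a, ∀ q ≤ r, (q ∈ meets (d l) ↔ q ∈ meets (e l))}

theorem down_EqOn {d e : L → Set P} {a : Set L} : Down (EqOn d e a) :=
  fun _ hp _ hq l hl r hr => hp l hl r (hr.trans hq)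

theorem EqOn_refl {d : L → Set P} {a : Set L} (r : P) : r ∈ EqOn d d a := fun _ _ _ _ => Iff.rfl

theorem EqOn_symm {d e : L → Set P} {a : Set L} {r : P} (h : r ∈ EqOn d e a) : r ∈ EqOn e d a :=
  fun l hl q hq => (h l hl q hq).symm

theorem EqOn_trans {d e f : L → Set P} {a : Set L} {r : P} (h : r ∈ EqOn d e a)
    (h' : r ∈ EqOn e f a) : r ∈ EqOn d f a :=
  fun l hl q hq => (h l hl q hq).trans (h' l hl q hq)

theorem EqOn_mono {d e : L → Set P} {a b : Set L} (hab : a ⊆ b) {r : P} (h : r ∈ EqOn d e b) :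
    r ∈ EqOn d e a := fun l hl => h l (hab hl)

theorem EqOn_of_dense {d e : L → Set P} {a : Set L} {p : P}
    (h : ∀ q ≤ p, ∃ r ≤ q, r ∈ EqOn d e a) : p ∈ EqOn d e a := by
  intro l hl q hq
  constructor
  · intro h1
    refine meets_of_dense fun q' hq' => ?_
    obtain ⟨r, hr, h2⟩ := h q' (hq'.trans hq)
    exact ⟨r, hr, (h2 l hl r le_rfl).1 (down_meets _ _ h1 _ (hr.trans hq'))⟩
  · intro h1
    refine meets_of_dense fun q' hq' => ?_
    obtain ⟨r, hr, h2⟩ := h q' (hq'.trans hq)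
    exact ⟨r, hr, (h2 l hl r le_rfl).2 (down_meets _ _ h1 _ (hr.trans hq'))⟩

theorem not_EqOn {d e : L → Set P} {a : Set L} {p : P} (h : p ∉ EqOn d e a) :
    ∃ q ≤ p, q ∈ fnot (EqOn d e a) := by
  by_contra hcon
  push Not at hcon
  refine h (EqOn_of_dense fun q hq => ?_)
  have h1 := hcon q hq
  unfold fnot at h1
  simp only [Set.mem_ofPred_eq, not_forall, not_not] at h1
  obtain ⟨r, hr, h2⟩ := h1
  exact ⟨r, hr, h2⟩

theorem mem_SEq {x y : L → Set P} {p : P} : p ∈ SEq x y ↔ p ∈ EqOn x y Set.univ := by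
  unfold SEq
  rw [mem_fall]
  constructor
  · intro h l _ q hq
    exact mem_fiff_meets.1 (h l) q hq
  · intro h l
    exact mem_fiff_meets.2 fun q hq => h l trivial q hq

theorem SEq_iff {x y : L → Set P} {p : P} :
    p ∈ SEq x y ↔ ∀ l, ∀ q ≤ p, (q ∈ meets (x l) ↔ q ∈ meets (y l)) := by
  rw [mem_SEq]
  exact ⟨fun h l => h l trivial, fun h l _ => h l⟩

theorem down_SEq {x y : L → Set P} : Down (SEq x y) := by
  intro p hp q hq
  rw [mem_SEq] at hp ⊢
  exact down_EqOn _ hp _ hq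

theorem SEq_refl {x : L → Set P} (p : P) : p ∈ SEq x x := mem_SEq.2 (EqOn_refl _)

theorem SEq_symm {x y : L → Set P} {p : P} (h : p ∈ SEq x y) : p ∈ SEq y x :=
  mem_SEq.2 (EqOn_symm (mem_SEq.1 h))

theorem SEq_trans {x y z : L → Set P} {p : P} (h : p ∈ SEq x y) (h' : p ∈ SEq y z) :
    p ∈ SEq x z := mem_SEq.2 (EqOn_trans (mem_SEq.1 h) (mem_SEq.1 h'))

theorem SEq_of_dense {x y : L → Set P} {p : P} (h : ∀ q ≤ p, ∃ r ≤ q, r ∈ SEq x y) :
    p ∈ SEq x y := by
  rw [mem_SEq]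
  refine EqOn_of_dense fun q hq => ?_
  obtain ⟨r, hr, h1⟩ := h q hq
  exact ⟨r, hr, mem_SEq.1 h1⟩

theorem mem_meets_fground {h : Prop} {p : P} : p ∈ meets (fground (P := P) h) ↔ h := by
  constructor
  · intro h1
    obtain ⟨_, _, _, hs, _⟩ := h1 p le_rfl
    exact hs
  · exact fun h1 => meets_of_mem h1

/-- the name for `a` -/
def check (a : Set L) : L → Set P := fun l => fground (l ∈ a)

theorem mem_check {a : Set L} {l : L} {p : P} : p ∈ meets (check a l) ↔ l ∈ a := mem_meets_fground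

theorem mem_sing {l l' : L} {p : P} : p ∈ meets (sing l l') ↔ l' = l := mem_meets_fground

theorem SEq_sing_unique {x : L → Set P} {l l' : L} {p : P} (h : p ∈ SEq x (sing l))
    (h' : p ∈ SEq x (sing l')) : l = l' := by
  have h1 := (SEq_iff.1 (SEq_trans (SEq_symm h) h') l p le_rfl).1 (mem_sing.2 rfl)
  exact mem_sing.1 h1

theorem down_inter {x y : L → Set P} (l : L) : Down (inter x y l) :=
  down_fand (down_meets _) (down_meets _)

theorem mem_inter {x y : L → Set P} {l : L} {p : P} :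
    p ∈ meets (inter x y l) ↔ p ∈ meets (x l) ∧ p ∈ meets (y l) := by
  constructor
  · intro h
    constructor
    · refine meets_of_dense fun q hq => ?_
      obtain ⟨r, hr, s, hs, hrs⟩ := h q hq
      exact ⟨r, hr, down_meets _ _ hs.1 _ hrs⟩
    · refine meets_of_dense fun q hq => ?_
      obtain ⟨r, hr, s, hs, hrs⟩ := h q hq
      exact ⟨r, hr, down_meets _ _ hs.2 _ hrs⟩
  · exact fun h => meets_of_mem h

end

end Pool.Agent.W873.Gp
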